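import Pool.Agent.H52.KP.Targets

set_option autoImplicit false
set_option linter.unusedSectionVars false

/-!
The coherent path (target COH).
-/

open MeasureTheory Metric Set Topology Filter
open scoped RealInnerProductSpace
open Pool.Agent.H65k

namespace Pool.Agent.H52.KP

/-- solving `⟪v i, w⟫ = b i`. -/
lemma exists_inner {n : ℕ} {V : Type*} [NormedAddCommGroup V] [InnerProductSpace ℝ V]
    [FiniteDimensional ℝ V] (v : Fin n → V) (b : Fin n → ℝ)
    (h : ∀ a : Fin n → ℝ, ∑ i, a i • v i = 0 → ∑ i, a i * b i = 0) :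
    ∃ w : V, ∀ i, ⟪v i, w⟫ = b i := by
  classical
  let f : (Fin n → ℝ) →ₗ[ℝ] V := Fintype.linearCombination ℝ v
  let g : (Fin n → ℝ) →ₗ[ℝ] ℝ := Fintype.linearCombination ℝ b
  have hf : ∀ a, f a = ∑ i, a i • v i := fun a => Fintype.linearCombination_apply ℝ v a
  have hg : ∀ a, g a = ∑ i, a i * b i := fun a => by
    show Fintype.linearCombination ℝ b a = _
    rw [Fintype.linearCombination_apply]
    rfl
  have hmem : g ∈ LinearMap.range f.dualMap := by
    rw [LinearMap.range_dualMap_eq_dualAnnihilator_ker, Submodule.mem_dualAnnihilator]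
    intro a ha
    rw [LinearMap.mem_ker, hf] at ha
    rw [hg]
    exact h a ha
  obtain ⟨φ, hφ⟩ := hmem
  have hφ' : ∀ a, φ (f a) = g a := fun a => by
    rw [← hφ]; rfl
  refine ⟨(InnerProductSpace.toDual ℝ V).symm (LinearMap.toContinuousLinearMap φ), fun i => ?_⟩
  rw [real_inner_comm, InnerProductSpace.toDual_symm_apply]
  have h1 : f (Pi.single i 1) = v i := by
    rw [hf, Finset.sum_eq_single i]
    · simp
    · intro j _ hj; simp [hj]
    · simp
  have h2 : g (Pi.single i 1) = b i := by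
    rw [hg, Finset.sum_eq_single i]
    · simp
    · intro j _ hj; simp [hj]
    · simp
  have h3 := hφ' (Pi.single i 1)
  rw [h1, h2] at h3
  simpa using h3

/-- a proper subspace has a unit normal. -/
lemma exists_unit_orth {V : Type*} [NormedAddCommGroup V] [InnerProductSpace ℝ V]
    [FiniteDimensional ℝ V] (W : Submodule ℝ V) (h : Module.finrank ℝ W < Module.finrank ℝ V) :
    ∃ u : V, ‖u‖ = 1 ∧ ∀ w ∈ W, ⟪w, u⟫ = 0 := by
  have h1 : Wᗮ ≠ ⊥ := by
    intro h0
    have h2 := Submodule.finrank_add_finrank_orthogonal W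
    rw [h0, finrank_bot] at h2
    omega
  obtain ⟨v, hv, hv0⟩ := Submodule.exists_mem_ne_zero_of_ne_bot h1
  have hn : ‖v‖ ≠ 0 := norm_ne_zero_iff.2 hv0
  refine ⟨‖v‖⁻¹ • v, ?_, fun w hw => ?_⟩
  · rw [norm_smul, norm_inv, norm_norm, inv_mul_cancel₀ hn]
  · rw [inner_smul_right, Submodule.inner_right_of_mem_orthogonal hw hv, mul_zero]

lemma shift_sum {n : ℕ} {E : Type*} [AddCommGroup E] [Module ℝ E] (lam : Fin n → ℝ)
    (i₀ : Fin n) (g : Fin n → E) :
    ∑ i, (lam i - if i = i₀ then ∑ j, lam j else 0) • g i = ∑ i, lam i • (g i - g i₀) := by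
  have e1 : ∑ i, (lam i - if i = i₀ then ∑ j, lam j else 0) • g i
      = ∑ i, lam i • g i - (∑ j, lam j) • g i₀ := by
    simp only [sub_smul, Finset.sum_sub_distrib, ite_smul, zero_smul,
      Finset.sum_ite_eq', Finset.mem_univ, if_true]
  rw [e1]
  simp only [smul_sub, Finset.sum_sub_distrib, ← Finset.sum_smul]

/-- general form of the coherent path. -/
theorem coh_gen {n : ℕ} {X V : Type*} [NormedAddCommGroup X] [InnerProductSpace ℝ X]
    [FiniteDimensional ℝ X] [NormedAddCommGroup V] [InnerProductSpace ℝ V]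
    [FiniteDimensional ℝ V] (p q : Fin n → X) (ρ : Fin n → ℝ) (i₀ : Fin n)
    (hdim : Module.finrank ℝ (jointSpan p q) < Module.finrank ℝ V)
    (hcoh : ∀ a : Fin n → ℝ, ∑ i, a i = 0 → ∑ i, a i • p i = 0 → ∑ i, a i • q i = 0 →
      ∑ i, a i * (‖p i‖ ^ 2 - ρ i ^ 2) = 0 ∧ ∑ i, a i * (‖q i‖ ^ 2 - ρ i ^ 2) = 0) :
    ∃ c : ℝ → Fin n → V, ContinuousOn c (Icc 0 1) ∧
      (∀ t ∈ Ioo (0 : ℝ) 1, DifferentiableAt ℝ c t) ∧
      (∀ t ∈ Icc (0 : ℝ) 1, ∀ i j, ‖c t i - c t j‖ ^ 2
        = (1 - t) * ‖p i - p j‖ ^ 2 + t * ‖q i - q j‖ ^ 2) ∧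
      ∀ t ∈ Ioo (0 : ℝ) 1, Coh ρ (c t) := by
  classical
  set e : (X × X) ≃ₗ[ℝ] WithLp 2 (X × X) := (WithLp.linearEquiv 2 ℝ (X × X)).symm with he
  set S : Submodule ℝ (WithLp 2 (X × X)) := (jointSpan p q).map (e : (X × X) →ₗ[ℝ] _) with hS
  have hSdim : Module.finrank ℝ S = Module.finrank ℝ (jointSpan p q) :=
    LinearEquiv.finrank_map_eq e _
  let fs : WithLp 2 (X × X) →ₗ[ℝ] X :=
    (LinearMap.fst ℝ X X).comp (WithLp.linearEquiv 2 ℝ (X × X) : WithLp 2 (X × X) →ₗ[ℝ] X × X)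
  let sn : WithLp 2 (X × X) →ₗ[ℝ] X :=
    (LinearMap.snd ℝ X X).comp (WithLp.linearEquiv 2 ℝ (X × X) : WithLp 2 (X × X) →ₗ[ℝ] X × X)
  let A : S →ₗ[ℝ] X := fs.comp S.subtype
  let B : S →ₗ[ℝ] X := sn.comp S.subtype
  have hAB : ∀ z, ‖A z‖ ^ 2 + ‖B z‖ ^ 2 = ‖z‖ ^ 2 := by
    intro z
    have := WithLp.prod_norm_sq_eq_of_L2 (z : WithLp 2 (X × X))
    rw [Submodule.coe_norm, this]
    rfl
  have hdim' : Module.finrank ℝ S ≤ Module.finrank ℝ V := by rw [hSdim]; exact hdim.le
  obtain ⟨T, hT, hTc, hTd⟩ := exists_path (V := V) A B hAB hdim'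
  have hmem : ∀ i j, e (p i - p j, q i - q j) ∈ S := fun i j =>
    Submodule.mem_map_of_mem (Submodule.subset_span ⟨i, j, rfl⟩)
  let z : Fin n → S := fun i => ⟨e (p i - p i₀, q i - q i₀), hmem i i₀⟩
  have hA : ∀ i, A (z i) = p i - p i₀ := fun i => rfl
  have hB : ∀ i, B (z i) = q i - q i₀ := fun i => rfl
  set c : ℝ → Fin n → V := fun t i => T t (z i) with hc
  refine ⟨c, (continuous_pi fun i => hTc (z i)).continuousOn,
    fun t ht => differentiableAt_pi.2 fun i => hTd (z i) t ht, ?_, ?_⟩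
  · intro t ht i j
    have h2 : c t i - c t j = T t (z i - z j) := by simp only [hc, map_sub]
    rw [h2, hT t ht, map_sub, map_sub, hA, hA, hB, hB]
    congr 3 <;> abel_nf
  · intro t ht
    have htI : t ∈ Icc (0 : ℝ) 1 := Ioo_subset_Icc_self ht
    have hinj : ∀ y : S, T t y = 0 → y = 0 := by
      intro y hy
      have h1 := hT t htI y
      rw [hy, norm_zero] at h1
      have h2 : 0 ≤ (1 - t) * ‖A y‖ ^ 2 := mul_nonneg (by linarith [ht.2]) (by positivity)
      have h3 : 0 ≤ t * ‖B y‖ ^ 2 := mul_nonneg ht.1.le (by positivity)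
      have h4 : (1 - t) * ‖A y‖ ^ 2 = 0 := by nlinarith
      have h5 : t * ‖B y‖ ^ 2 = 0 := by nlinarith
      have h6 : ‖A y‖ ^ 2 = 0 := (mul_eq_zero.1 h4).resolve_left (by linarith [ht.2])
      have h7 : ‖B y‖ ^ 2 = 0 := (mul_eq_zero.1 h5).resolve_left (by linarith [ht.1])
      have h8 := hAB y
      rw [h6, h7, add_zero] at h8
      have : ‖y‖ = 0 := by
        have := h8.symm
        exact pow_eq_zero_iff (two_ne_zero) |>.1 this
      exact norm_eq_zero.1 this
    set W : Submodule ℝ V := LinearMap.range (T t) with hW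
    have hWdim : Module.finrank ℝ W < Module.finrank ℝ V := by
      have h1 : Module.finrank ℝ W ≤ Module.finrank ℝ S := LinearMap.finrank_range_le _
      rw [hSdim] at h1
      exact h1.trans_lt hdim
    obtain ⟨u, hu1, hu⟩ := exists_unit_orth W hWdim
    let v : Fin n → W := fun i => ⟨c t i, z i, rfl⟩
    let f : Fin n → ℝ := fun i => ‖c t i‖ ^ 2 - ρ i ^ 2
    have hcn : ∀ i, ‖c t i‖ ^ 2 = (1 - t) * ‖p i - p i₀‖ ^ 2 + t * ‖q i - q i₀‖ ^ 2 := by
      intro i
      have := hT t htI (z i)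
      rw [hA, hB] at this
      exact this
    obtain ⟨a, ha⟩ := exists_inner v (fun i => (f i - f i₀) / 2) (by
      intro lam hlam
      have h1 : T t (∑ i, lam i • z i) = 0 := by
        rw [map_sum]
        have h2 := congrArg (Subtype.val : W → V) hlam
        simp only [Submodule.coe_sum, Submodule.coe_smul, Submodule.coe_zero] at h2
        rw [← h2]
        refine Finset.sum_congr rfl fun i _ => ?_
        rw [map_smul]
      have h2 := hinj _ h1
      have h3 : ∑ i, lam i • (p i - p i₀) = 0 := by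
        have := congrArg A h2
        rw [map_sum, map_zero] at this
        rw [← this]
        refine Finset.sum_congr rfl fun i _ => ?_
        rw [map_smul, hA]
      have h4 : ∑ i, lam i • (q i - q i₀) = 0 := by
        have := congrArg B h2
        rw [map_sum, map_zero] at this
        rw [← this]
        refine Finset.sum_congr rfl fun i _ => ?_
        rw [map_smul, hB]
      set L : ℝ := ∑ i, lam i with hL
      let lam' : Fin n → ℝ := fun i => lam i - if i = i₀ then L else 0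
      have k1 : ∑ i, lam' i = 0 := by
        simp only [lam', Finset.sum_sub_distrib, Finset.sum_ite_eq', Finset.mem_univ, if_true,
          hL, sub_self]
      have k2 : ∑ i, lam' i • p i = 0 := (shift_sum lam i₀ p).trans h3
      have k3 : ∑ i, lam' i • q i = 0 := (shift_sum lam i₀ q).trans h4
      obtain ⟨k4, k5⟩ := hcoh lam' k1 k2 k3
      have k6 : ∑ i, lam i * ((f i - f i₀) / 2) = (∑ i, lam' i * f i) / 2 := by
        have : ∑ i, lam' i * f i = ∑ i, lam i * (f i - f i₀) := shift_sum lam i₀ f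
        rw [this, Finset.sum_div]
        exact Finset.sum_congr rfl fun i _ => by ring
      rw [k6]
      have k7 : ∀ (r : Fin n → X), ∑ i, lam' i • r i = 0 →
          ∑ i, lam' i * (‖r i‖ ^ 2 - ρ i ^ 2) = 0 →
          ∑ i, lam' i * (‖r i - r i₀‖ ^ 2 - ρ i ^ 2) = 0 := by
        intro r hr1 hr2
        have m1 : ∀ i, lam' i * (‖r i - r i₀‖ ^ 2 - ρ i ^ 2)
            = lam' i * (‖r i‖ ^ 2 - ρ i ^ 2) - 2 * ⟪lam' i • r i, r i₀⟫
              + lam' i * ‖r i₀‖ ^ 2 := by
          intro i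
          rw [norm_sub_sq_real, real_inner_smul_left]
          ring
        simp_rw [m1]
        rw [Finset.sum_add_distrib, Finset.sum_sub_distrib, hr2, ← Finset.sum_mul, k1,
          ← Finset.mul_sum, ← sum_inner, hr1]
        simp
      have k8 := k7 p k2 k4
      have k9 := k7 q k3 k5
      have k10 : ∑ i, lam' i * f i = (1 - t) * ∑ i, lam' i * (‖p i - p i₀‖ ^ 2 - ρ i ^ 2)
          + t * ∑ i, lam' i * (‖q i - q i₀‖ ^ 2 - ρ i ^ 2) := by
        rw [Finset.mul_sum, Finset.mul_sum, ← Finset.sum_add_distrib]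
        refine Finset.sum_congr rfl fun i _ => ?_
        simp only [f]
        rw [hcn]
        ring
      rw [k10, k8, k9]
      simp)
    refine ⟨(a : V), u, f i₀ + ‖(a : V)‖ ^ 2, hu1, ?_, ?_⟩
    · intro l
      rw [inner_sub_left, hu _ (⟨z l, rfl⟩ : c t l ∈ W), hu _ a.2, sub_zero]
    · intro l
      have h1 : ⟪c t l, (a : V)⟫ = (f l - f i₀) / 2 := ha l
      rw [norm_sub_sq_real, h1]
      simp only [f]
      ring

theorem coh : T_COH := by
  intro d n p q ρ hn hpq hrank hcoh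
  have hJdim : Module.finrank ℝ (jointSpan p q) ≤ d + 3 := by
    have h1 : jointSpan p q ≤ vectorSpan ℝ (Set.range fun i => (p i, q i)) := by
      refine Submodule.span_le.2 ?_
      rintro z ⟨i, j, rfl⟩
      exact vsub_mem_vectorSpan ℝ (mem_range_self i) (mem_range_self j)
    exact (Submodule.finrank_mono h1).trans hrank
  have hVdim : Module.finrank ℝ (Eu (d + 4)) = d + 4 := by simp
  obtain ⟨c, h1, h2, h3, h4⟩ := coh_gen (V := Eu (d + 4)) p q ρ ⟨0, hn⟩
    (by rw [hVdim]; omega) hcoh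
  exact ⟨c, ⟨h1, h2, h3, fun i j => ⟨by positivity,
    pow_le_pow_left₀ (norm_nonneg _) (hpq i j) 2⟩⟩, h4⟩

end Pool.Agent.H52.KP
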