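import Pool.Agent.H52.KP.Targets

set_option autoImplicit false
set_option linter.unusedSectionVars false

/-!
From the comparison of the functionals `U` to Kneser's weighted inequality.
-/

open MeasureTheory Metric Set Topology Filter
open scoped RealInnerProductSpace
open Pool.Agent.H65k

namespace Pool.Agent.H52.KP

section sums

variable {n : ℕ} {X : Type*} [NormedAddCommGroup X] [InnerProductSpace ℝ X]
  [FiniteDimensional ℝ X] [MeasurableSpace X] [BorelSpace X]

lemma cnt_zero (ρ : Fin n → ℝ) (hρ : ∀ i, 0 < ρ i) (p : Fin n → X) (x : X) :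
    cnt ρ 0 p x = mult ρ p x := by
  unfold cnt mult
  congr 1
  ext i
  simp only [Finset.mem_filter, Finset.mem_univ, true_and]
  unfold pw
  rw [dist_eq_norm, sub_nonpos, sq_le_sq₀ (norm_nonneg _) (hρ i).le]

lemma tele (M : ℝ → ℝ) (N m : ℕ) (h : m ≤ N) :
    M m - M 0 = ∑ j ∈ Finset.range N, (M ((j : ℝ) + 1) - M j) * (if j + 1 ≤ m then 1 else 0) := by
  induction N with
  | zero =>
    have : m = 0 := by omega
    subst this
    simp
  | succ N ih =>
    rw [Finset.sum_range_succ]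
    rcases Nat.lt_or_ge N m with h1 | h1
    · have hm : m = N + 1 := by omega
      subst hm
      have h2 : ∑ j ∈ Finset.range N, (M ((j : ℝ) + 1) - M j) *
          (if j + 1 ≤ N + 1 then 1 else 0) = ∑ j ∈ Finset.range N, (M ((j + 1 : ℕ) : ℝ) - M j) := by
        refine Finset.sum_congr rfl fun j hj => ?_
        rw [if_pos (by have := Finset.mem_range.1 hj; omega)]
        push_cast; ring
      rw [h2, Finset.sum_range_sub (fun j : ℕ => M (j : ℝ)), if_pos le_rfl]
      push_cast; ring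
    · rw [← ih h1, if_neg (by omega)]
      ring

lemma mult_le (ρ : Fin n → ℝ) (p : Fin n → X) (x : X) : mult ρ p x ≤ n := by
  unfold mult
  exact (Finset.card_filter_le _ _).trans (by simp)

lemma U_eq (M : ℝ → ℝ) (ρ : Fin n → ℝ) (hρ : ∀ i, 0 < ρ i) (p : Fin n → X) :
    U M ρ 0 p = ∑ j ∈ Finset.range n, (M ((j : ℝ) + 1) - M j) * (volume (lev ρ p j)).toReal := by
  unfold U
  have h1 : ∀ x : X, M (cnt ρ 0 p x) - M 0 = ∑ j ∈ Finset.range n,
      (lev ρ p j).indicator (fun _ => (M ((j : ℝ) + 1) - M j)) x := by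
    intro x
    rw [cnt_zero ρ hρ, tele M n _ (mult_le ρ p x)]
    refine Finset.sum_congr rfl fun j _ => ?_
    simp [indicator, lev]
  simp_rw [h1]
  rw [integral_finsetSum]
  · refine Finset.sum_congr rfl fun j _ => ?_
    rw [integral_indicator (measurableSet_lev ρ p j)]
    simp [Measure.real, mul_comm]
  · intro k _
    rw [integrable_indicator_iff (measurableSet_lev ρ p k)]
    exact integrableOn_const (lev_finite ρ p k).ne

/-- `Mk` is admissible. -/
lemma goodM_Mk (m : ℝ) (k : ℕ) : GoodM (Mk m k) := by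
  refine ⟨Mk_contDiff m k, Mk_deriv2 m k, fun s => ?_⟩
  rw [Mk_deriv]
  have h : 1 / (1 + Real.exp (((k : ℝ) + 1) * (m - s))) ≤ 1 := by
    rw [div_le_one (by positivity)]
    have := Real.exp_pos (((k : ℝ) + 1) * (m - s))
    linarith
  linarith

/-- comparison of the partial sums. -/
lemma sums_of_U (ρ : Fin n → ℝ) (hρ : ∀ i, 0 < ρ i) (p q : Fin n → X)
    (h : ∀ M : ℝ → ℝ, GoodM M → U M ρ 0 q ≤ U M ρ 0 p) (m : ℕ) (hm : m ≤ n) :
    ∑ k ∈ Finset.range m, (volume (lev ρ q k)).toReal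
      ≤ ∑ k ∈ Finset.range m, (volume (lev ρ p k)).toReal := by
  have key : ∀ r : Fin n → X, Tendsto (fun k => U (Mk m k) ρ 0 r) atTop
      (𝓝 (∑ k ∈ Finset.range m, (volume (lev ρ r k)).toReal)) := by
    intro r
    simp_rw [U_eq _ ρ hρ r]
    have h1 : ∀ j : ℕ, Tendsto (fun k => Mk m k ((j : ℝ) + 1) - Mk m k j) atTop
        (𝓝 (if j < m then 1 else 0)) := by
      intro j
      have h2 := (Mk_tendsto m (tendsto_const_nhds (x := (j : ℝ) + 1) (f := atTop (α := ℕ)))).sub
        (Mk_tendsto m (tendsto_const_nhds (x := (j : ℝ)) (f := atTop (α := ℕ))))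
      have h3 : -max ((m : ℝ) - ((j : ℝ) + 1)) 0 - -max ((m : ℝ) - (j : ℝ)) 0
          = if j < m then 1 else 0 := by
        split_ifs with hj
        · have : (j : ℝ) + 1 ≤ m := by exact_mod_cast hj
          rw [max_eq_left (by linarith), max_eq_left (by linarith)]
          ring
        · have : (m : ℝ) ≤ j := by exact_mod_cast not_lt.1 hj
          rw [max_eq_right (by linarith), max_eq_right (by linarith)]
          ring
      rwa [h3] at h2
    have h4 : Tendsto (fun k => ∑ j ∈ Finset.range n, (Mk m k ((j : ℝ) + 1) - Mk m k j) *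
        (volume (lev ρ r j)).toReal) atTop (𝓝 (∑ j ∈ Finset.range n, (if j < m then 1 else 0) *
        (volume (lev ρ r j)).toReal)) :=
      tendsto_finsetSum _ fun j _ => (h1 j).mul_const _
    have h5 : ∑ j ∈ Finset.range n, (if j < m then (1 : ℝ) else 0) *
        (volume (lev ρ r j)).toReal = ∑ k ∈ Finset.range m, (volume (lev ρ r k)).toReal := by
      simp only [ite_mul, one_mul, zero_mul]
      rw [← Finset.sum_filter]
      congr 1
      ext j
      simp only [Finset.mem_filter, Finset.mem_range]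
      omega
    rwa [h5] at h4
  exact le_of_tendsto_of_tendsto' (key q) (key p) fun k => h _ (goodM_Mk m k)

/-- Kneser's weighted inequality from the comparison of the partial sums. -/
theorem weighted_of_sums (ρ : Fin n → ℝ) (p q : Fin n → X)
    (h : ∀ m ≤ n, ∑ k ∈ Finset.range m, (volume (lev ρ q k)).toReal
      ≤ ∑ k ∈ Finset.range m, (volume (lev ρ p k)).toReal)
    (τ : Fin n → ℝ) (hτ : Antitone τ) :
    ∑ k : Fin n, τ k * (volume {x : X | k.val + 1 ≤
        (Finset.univ.filter (fun i => dist x (q i) ≤ ρ i)).card}).toReal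
      ≤ ∑ k : Fin n, τ k * (volume {x : X | k.val + 1 ≤
        (Finset.univ.filter (fun i => dist x (p i) ≤ ρ i)).card}).toReal := by
  set τ' : ℕ → ℝ := fun k => if h : k < n then τ ⟨k, h⟩ else 0 with hτ'
  have e : ∀ r : Fin n → X, ∑ k : Fin n, τ k * (volume {x : X | k.val + 1 ≤
        (Finset.univ.filter (fun i => dist x (r i) ≤ ρ i)).card}).toReal
      = ∑ k ∈ Finset.range n, τ' k * (volume (lev ρ r k)).toReal := by
    intro r
    rw [Finset.sum_range]
    refine Finset.sum_congr rfl fun k _ => ?_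
    simp only [hτ', k.isLt, dif_pos]
    rfl
  rw [e p, e q]
  refine abel n τ' _ _ ?_ h ?_
  · intro k hk
    simp only [hτ', hk, (Nat.lt_succ_self k).trans hk, dif_pos]
    exact hτ (Fin.mk_le_mk.2 (Nat.le_succ k))
  · rw [sum_total, sum_total]

end sums

/-- the comparison of the functionals for coherent configurations. -/
theorem U_le (hPATH : T_PATH) (hCOH : T_COH) (hLIFT : T_LIFT) (hISO : T_ISO) (hUR : T_UR)
    {d n : ℕ} (hn : 0 < n) (p q : Fin n → Eu d) (ρ : Fin n → ℝ)
    (hpq : ∀ i j, ‖q i - q j‖ ≤ ‖p i - p j‖)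
    (hr : Module.finrank ℝ (vectorSpan ℝ (Set.range fun i => (p i, q i))) ≤ d + 3)
    (hcoh : CohHyp p q ρ) (M : ℝ → ℝ) (hM : GoodM M) : U M ρ 0 q ≤ U M ρ 0 p := by
  obtain ⟨c, hc, hcc⟩ := hCOH d n p q ρ hn hpq hr hcoh
  obtain ⟨C, hC, hL⟩ := hLIFT
  have hsq : ∀ a b : ℝ, 0 ≤ a → 0 ≤ b → a ^ 2 = b ^ 2 → a = b := fun a b ha hb h =>
    (sq_eq_sq₀ ha hb).1 h
  have h0 : ∀ i j, ‖c 0 i - c 0 j‖ = ‖p i - p j‖ := by
    intro i j
    refine hsq _ _ (norm_nonneg _) (norm_nonneg _) ?_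
    rw [hc.2.2.1 0 (left_mem_Icc.2 zero_le_one) i j]; ring
  have h1 : ∀ i j, ‖c 1 i - c 1 j‖ = ‖q i - q j‖ := by
    intro i j
    refine hsq _ _ (norm_nonneg _) (norm_nonneg _) ?_
    rw [hc.2.2.1 1 (right_mem_Icc.2 zero_le_one) i j]; ring
  have hD0 : ∀ s ε, D2U M ρ s ε (c 0)
      = D2U M ρ s ε (fun i => (WithLp.toLp 2 (p i, 0) : WithLp 2 (Eu d × Eu 4))) := by
    intro s ε
    unfold D2U
    rw [hISO d n (c 0) p h0, hISO d n (c 0) p h0, hISO d n (c 0) p h0]
  have hD1 : ∀ s ε, D2U M ρ s ε (c 1)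
      = D2U M ρ s ε (fun i => (WithLp.toLp 2 (q i, 0) : WithLp 2 (Eu d × Eu 4))) := by
    intro s ε
    unfold D2U
    rw [hISO d n (c 1) q h1, hISO d n (c 1) q h1, hISO d n (c 1) q h1]
  have hstep : ∀ ε : ℝ, 0 < ε → ε ≤ 1 / 2 → U M ρ 0 q ≤ U M ρ (0 + ε) p := by
    intro ε hε hε2
    have e1 := hPATH n (d + 2) (by omega) M hM ρ c _ _ hc hcc 0 (ε / 2) (by linarith)
      (by linarith)
    rw [hD0, hD1] at e1
    have e2 := (hL d n M hM ρ q 0 (ε / 2) (by linarith)).1
    have e3 := (hL d n M hM ρ p 0 (ε / 2) (by linarith)).2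
    have e4 : C * (ε / 2) ^ 2 * U M ρ 0 q ≤ C * (ε / 2) ^ 2 * U M ρ (0 + 2 * (ε / 2)) p :=
      e2.trans (e1.trans e3)
    have e5 : 0 < C * (ε / 2) ^ 2 := by positivity
    have e6 := le_of_mul_le_mul_left e4 e5
    have e7 : (0 : ℝ) + 2 * (ε / 2) = 0 + ε := by ring
    rwa [e7] at e6
  refine ge_of_tendsto (hUR n d M hM ρ 0 p) ?_
  have e1 : ∀ᶠ ε : ℝ in 𝓝[>] (0 : ℝ), ε ≤ 1 / 2 :=
    nhdsWithin_le_nhds (Iic_mem_nhds (by norm_num))
  filter_upwards [self_mem_nhdsWithin, e1] with ε h1 h2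
  exact hstep ε h1 h2

/-- affinely independent joint points satisfy the coherence hypothesis. -/
lemma cohHyp_of_affineIndependent {d n : ℕ} (p q : Fin n → Eu d) (ρ : Fin n → ℝ)
    (h : AffineIndependent ℝ (fun i => (p i, q i))) : CohHyp p q ρ := by
  intro a h0 h1 h2
  have h3 : ∀ i, a i = 0 := by
    rw [affineIndependent_iff] at h
    intro i
    refine h Finset.univ a h0 ?_ i (Finset.mem_univ i)
    have : ∑ i, a i • (p i, q i) = (∑ i, a i • p i, ∑ i, a i • q i) := by
      rw [Prod.ext_iff]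
      simp [Prod.fst_sum, Prod.snd_sum]
    rw [this, h1, h2]
    rfl
  simp [h3]

theorem kneser_all (hPATH : T_PATH) (hCOH : T_COH) (hLIFT : T_LIFT) (hISO : T_ISO) (hUR : T_UR)
    (d n : ℕ) (p q : Fin n → EuclideanSpace ℝ (Fin d)) (ρ : Fin n → ℝ)
    (hρ : ∀ i, 0 < ρ i) (hpq : ∀ i j, dist (q i) (q j) ≤ dist (p i) (p j))
    (h : n ≤ d + 4 ∨
      (Module.finrank ℝ (vectorSpan ℝ (Set.range fun i => (p i, q i))) ≤ d + 3 ∧ CohHyp p q ρ))
    (τ : Fin n → ℝ) (hτ : Antitone τ) :
    ∑ k : Fin n, τ k *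
        (MeasureTheory.volume
          {x : EuclideanSpace ℝ (Fin d) |
            k.val + 1 ≤ (Finset.univ.filter (fun i => dist x (q i) ≤ ρ i)).card}).toReal
      ≤
    ∑ k : Fin n, τ k *
        (MeasureTheory.volume
          {x : EuclideanSpace ℝ (Fin d) |
            k.val + 1 ≤ (Finset.univ.filter (fun i => dist x (p i) ≤ ρ i)).card}).toReal := by
  rcases Nat.eq_zero_or_pos n with rfl | hn
  · simp
  have hpq' : ∀ i j, ‖q i - q j‖ ≤ ‖p i - p j‖ := by
    intro i j
    rw [← dist_eq_norm, ← dist_eq_norm]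
    exact hpq i j
  have main : (Module.finrank ℝ (vectorSpan ℝ (Set.range fun i => (p i, q i))) ≤ d + 2) ∨
      (Module.finrank ℝ (vectorSpan ℝ (Set.range fun i => (p i, q i))) ≤ d + 3 ∧
        CohHyp p q ρ) := by
    rcases h with h | h
    · have hcard : Fintype.card (Fin n) = (n - 1) + 1 := by simp; omega
      by_cases hai : AffineIndependent ℝ (fun i => (p i, q i))
      · right
        refine ⟨?_, cohHyp_of_affineIndependent p q ρ hai⟩
        have := finrank_vectorSpan_range_le ℝ (fun i : Fin n => (p i, q i)) hcard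
        omega
      · left
        have h1 := finrank_vectorSpan_range_le ℝ (fun i : Fin n => (p i, q i)) hcard
        by_contra h2
        have h3 : Module.finrank ℝ (vectorSpan ℝ (Set.range fun i => (p i, q i))) = n - 1 := by
          omega
        exact hai ((affineIndependent_iff_finrank_vectorSpan_eq ℝ _ hcard).2 h3)
    · right; exact h
  rcases main with h1 | ⟨h1, h2⟩
  · exact weighted_of_Jle ρ hρ p q (Jle_of_rank p q ρ hpq h1 ⟨0, hn⟩) τ hτ
  · refine weighted_of_sums ρ p q (fun m hm => ?_) τ hτ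
    exact sums_of_U ρ hρ p q (fun M hM => U_le hPATH hCOH hLIFT hISO hUR hn p q ρ hpq' h1 h2 M hM)
      m hm

end Pool.Agent.H52.KP
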