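import Pool.Agent.H52.KP.Targets

set_option autoImplicit false
set_option linter.unusedSectionVars false

/-!
The second difference does not increase along a coherent path (target PATH).
-/

open MeasureTheory Metric Set Topology Filter
open scoped RealInnerProductSpace
open Pool.Agent.H65k

namespace Pool.Agent.H52.KP

lemma continuous_Bk (hCONT : T_CONT) {n N : ℕ} {M : ℝ → ℝ} (hM : GoodM M) (ρ : Fin n → ℝ)
    (k : ℕ) (i j : Fin n) (s ε : ℝ) :
    Continuous (fun C : Fin n → Eu N => Bk k M ρ i j s ε C) := by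
  have h := hCONT n N M hM ρ k i j
  have h2 : Continuous (Function.uncurry fun (C : Fin n → Eu N) (σ : ℝ) => rk k M ρ i j σ C) := by
    have : (Function.uncurry fun (C : Fin n → Eu N) (σ : ℝ) => rk k M ρ i j σ C)
        = (fun z : ℝ × (Fin n → Eu N) => rk k M ρ i j z.1 z.2) ∘ Prod.swap := by
      funext z; rfl
    rw [this]
    exact h.comp continuous_swap
  unfold Bk
  exact (intervalIntegral.continuous_parametric_intervalIntegral_of_continuous' h2 _ _).sub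
    (intervalIntegral.continuous_parametric_intervalIntegral_of_continuous' h2 _ _)

/-- bound and limit of one term. -/
lemma term_props (hFRAME : T_FRAME) (hQB : T_QB) (hQL : T_QL) {n K : ℕ} (hK : 2 ≤ K)
    {M : ℝ → ℝ} (hM : GoodM M) (ρ : Fin n → ℝ) (c : ℝ → Fin n → Eu (K + 2))
    (A B : Fin n → Fin n → ℝ) (hc : LinPath c A B) (hcoh : ∀ t ∈ Ioo (0 : ℝ) 1, Coh ρ (c t))
    (s ε : ℝ) (hε : 0 < ε) (t1 t2 : ℝ) (ht1 : 0 < t1) (ht2 : t2 < 1) (i j : Fin n) :
    (∃ D : ℝ, ∀ k : ℕ, ∀ t ∈ Icc t1 t2,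
      |((A i j - B i j) / 2) * Bk k M ρ i j s ε (c t)| ≤ D) ∧
    ∀ t ∈ Icc t1 t2, ∃ L : ℝ, 0 ≤ L ∧
      Tendsto (fun k : ℕ => ((A i j - B i j) / 2) * Bk k M ρ i j s ε (c t)) atTop (𝓝 L) := by
  obtain ⟨-, -, hdist, hAB⟩ := hc
  have hA0 : 0 ≤ A i j := (hAB i j).1.trans (hAB i j).2
  rcases hA0.eq_or_lt with hA | hA
  · have hB : B i j = 0 := le_antisymm (by rw [hA]; exact (hAB i j).2) (hAB i j).1
    have hz : (A i j - B i j) / 2 = 0 := by rw [← hA, hB]; simp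
    refine ⟨⟨0, fun k t _ => ?_⟩, fun t _ => ⟨0, le_refl _, ?_⟩⟩
    · rw [hz]; simp
    · simp only [hz, zero_mul]; exact tendsto_const_nhds
  have hpos : ∀ t ∈ Icc t1 t2, (1 - t2) * A i j ≤ ‖c t i - c t j‖ ^ 2 := by
    intro t ht
    have h0 : t ∈ Icc (0 : ℝ) 1 := ⟨ht1.le.trans ht.1, ht.2.trans ht2.le⟩
    rw [hdist t h0 i j]
    have h1 : 0 ≤ t * B i j := mul_nonneg h0.1 (hAB i j).1
    have h2 : (1 - t2) * A i j ≤ (1 - t) * A i j :=
      mul_le_mul_of_nonneg_right (by linarith [ht.2]) hA.le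
    linarith
  have hm : 0 < (1 - t2) * A i j := mul_pos (by linarith) hA
  have hsq : ∀ t ∈ Icc t1 t2, √((1 - t2) * A i j) ≤ ‖c t i - c t j‖ := by
    intro t ht
    rw [Real.sqrt_le_left (norm_nonneg _)]
    exact hpos t ht
  have hne : ∀ t ∈ Icc t1 t2, c t i ≠ c t j := by
    intro t ht h
    have := hpos t ht
    rw [h, sub_self, norm_zero] at this
    norm_num at this
    linarith
  have hcoef : 0 ≤ (A i j - B i j) / 2 := by linarith [(hAB i j).2]
  have hIoo : ∀ t ∈ Icc t1 t2, t ∈ Ioo (0 : ℝ) 1 := fun t ht =>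
    ⟨ht1.trans_le ht.1, ht.2.trans_lt ht2⟩
  constructor
  · obtain ⟨C1, hC1, h1⟩ := hQB n K M hM (ρ i ^ 2) (s + 2 * ε)
    obtain ⟨C2, hC2, h2⟩ := hQB n K M hM (ρ i ^ 2) (s + ε)
    refine ⟨((A i j - B i j) / 2) * ((C1 + C2) / √((1 - t2) * A i j)), fun k t ht => ?_⟩
    rw [abs_mul, abs_of_nonneg hcoef]
    refine mul_le_mul_of_nonneg_left ?_ hcoef
    obtain ⟨xl, zl, P, hx, hz, hR, hrk⟩ := hFRAME n K ρ (c t) (hcoh t (hIoo t ht)) i j (hne t ht)
    have hκ : 0 < ‖c t i - c t j‖ := norm_pos_iff.2 (sub_ne_zero.2 (hne t ht))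
    obtain ⟨a1, a2⟩ := h1 k xl zl P i j hx _ hκ hz hR.le (s + ε) (by linarith)
    obtain ⟨b1, b2⟩ := h2 k xl zl P i j hx _ hκ hz hR.le s (by linarith)
    unfold Bk
    simp_rw [hrk]
    have hdiv : ∀ C : ℝ, 0 ≤ C → C / ‖c t i - c t j‖ ≤ C / √((1 - t2) * A i j) := fun C hC =>
      div_le_div_of_nonneg_left hC (Real.sqrt_pos.2 hm) (hsq t ht)
    have e1 := hdiv C1 hC1
    have e2 := hdiv C2 hC2
    rw [add_div, abs_le]
    constructor <;> linarith
  · intro t ht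
    obtain ⟨xl, zl, P, hx, hz, hR, hrk⟩ := hFRAME n K ρ (c t) (hcoh t (hIoo t ht)) i j (hne t ht)
    have hκ : 0 < ‖c t i - c t j‖ := norm_pos_iff.2 (sub_ne_zero.2 (hne t ht))
    obtain ⟨B0, hB0, hlim⟩ := hQL n K hK M hM xl zl P i j hx _ hκ hz s ε hε
    refine ⟨((A i j - B i j) / 2) * B0, mul_nonneg hcoef hB0, ?_⟩
    unfold Bk
    simp_rw [hrk]
    exact hlim.const_mul _

lemma D2U_anti (hDER : T_DER) (hFRAME : T_FRAME) (hQB : T_QB) (hQL : T_QL) (hLIMU : T_LIMU)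
    (hCONT : T_CONT) {n K : ℕ} (hK : 2 ≤ K) {M : ℝ → ℝ} (hM : GoodM M) (ρ : Fin n → ℝ)
    (c : ℝ → Fin n → Eu (K + 2)) (A B : Fin n → Fin n → ℝ) (hc : LinPath c A B)
    (hcoh : ∀ t ∈ Ioo (0 : ℝ) 1, Coh ρ (c t)) (s ε : ℝ) (hε : 0 < ε) (hs : s + 2 * ε ≤ 1 / 2)
    (t1 t2 : ℝ) (ht1 : 0 < t1) (ht12 : t1 ≤ t2) (ht2 : t2 < 1) :
    D2U M ρ s ε (c t2) ≤ D2U M ρ s ε (c t1) := by
  have hterm := term_props hFRAME hQB hQL hK hM ρ c A B hc hcoh s ε hε t1 t2 ht1 ht2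
  choose D hD using fun i j => (hterm i j).1
  have hL : ∀ i j, ∃ L : ℝ → ℝ, ∀ t ∈ Icc t1 t2, 0 ≤ L t ∧
      Tendsto (fun k : ℕ => ((A i j - B i j) / 2) * Bk k M ρ i j s ε (c t)) atTop (𝓝 (L t)) := by
    intro i j
    have h := (hterm i j).2
    classical
    refine ⟨fun t => if ht : t ∈ Icc t1 t2 then (h t ht).choose else 0, fun t ht => ?_⟩
    simp only [ht, dif_pos]
    exact (h t ht).choose_spec
  choose L hL using hL
  have hcc : ContinuousOn c (Icc t1 t2) := hc.1.mono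
    (Icc_subset_Icc ht1.le ht2.le)
  set F : ℕ → ℝ → ℝ := fun k t => ∑ i, ∑ j, ((A i j - B i j) / 2) * Bk k M ρ i j s ε (c t)
    with hF
  have hFc : ∀ k, ContinuousOn (F k) (Icc t1 t2) := by
    intro k
    simp only [hF]
    refine continuousOn_finsetSum _ fun i _ => continuousOn_finsetSum _ fun j _ => ?_
    exact continuousOn_const.mul ((continuous_Bk hCONT hM ρ k i j s ε).comp_continuousOn hcc)
  have hlim : Tendsto (fun k => ∫ t in t1..t2, F k t) atTop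
      (𝓝 (∫ t in t1..t2, ∑ i, ∑ j, L i j t)) := by
    refine intervalIntegral.tendsto_integral_filter_of_dominated_convergence
      (fun _ => ∑ i, ∑ j, D i j) ?_ ?_ ?_ ?_
    · refine Eventually.of_forall fun k => ?_
      rw [uIoc_of_le ht12]
      exact ((hFc k).mono Ioc_subset_Icc_self).aestronglyMeasurable measurableSet_Ioc
    · refine Eventually.of_forall fun k => Eventually.of_forall fun t ht => ?_
      rw [uIoc_of_le ht12] at ht
      have ht' := Ioc_subset_Icc_self ht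
      rw [Real.norm_eq_abs]
      refine (Finset.abs_sum_le_sum_abs _ _).trans (Finset.sum_le_sum fun i _ => ?_)
      exact (Finset.abs_sum_le_sum_abs _ _).trans (Finset.sum_le_sum fun j _ => hD i j k t ht')
    · exact intervalIntegrable_const
    · refine Eventually.of_forall fun t ht => ?_
      rw [uIoc_of_le ht12] at ht
      have ht' := Ioc_subset_Icc_self ht
      exact tendsto_finsetSum _ fun i _ => tendsto_finsetSum _ fun j _ => (hL i j t ht').2
  have hnn : 0 ≤ ∫ t in t1..t2, ∑ i, ∑ j, L i j t := by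
    refine intervalIntegral.integral_nonneg ht12 fun t ht => ?_
    exact Finset.sum_nonneg fun i _ => Finset.sum_nonneg fun j _ => (hL i j t ht).1
  have hU : ∀ t, Tendsto (fun k => D2Us k M ρ s ε (c t)) atTop (𝓝 (D2U M ρ s ε (c t))) := by
    intro t
    unfold D2Us D2U
    exact ((hLIMU n _ M hM ρ _ (c t)).sub ((hLIMU n _ M hM ρ _ (c t)).const_mul 2)).add
      (hLIMU n _ M hM ρ _ (c t))
  have hlim2 : Tendsto (fun k => D2Us k M ρ s ε (c t2) - D2Us k M ρ s ε (c t1)) atTop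
      (𝓝 (-∫ t in t1..t2, ∑ i, ∑ j, L i j t)) := by
    refine hlim.neg.congr' ?_
    filter_upwards [eventually_ge_atTop 1] with k hk
    rw [hDER n _ M hM ρ k hk c A B hc s ε hε hs t1 t2 ht1 ht12 ht2]
  have := tendsto_nhds_unique ((hU t2).sub (hU t1)) hlim2
  linarith

theorem path (hDER : T_DER) (hFRAME : T_FRAME) (hQB : T_QB) (hQL : T_QL) (hLIMU : T_LIMU)
    (hUC : T_UC) (hCONT : T_CONT) : T_PATH := by
  intro n K hK M hM ρ c A B hc hcoh s ε hε hs
  have hcontU : ContinuousOn (fun t => D2U M ρ s ε (c t)) (Icc 0 1) := by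
    have h : Continuous (fun C : Fin n → Eu (K + 2) => D2U M ρ s ε C) := by
      unfold D2U
      exact ((hUC n _ (by omega) M hM ρ _).sub ((hUC n _ (by omega) M hM ρ _).const_mul 2)).add
        (hUC n _ (by omega) M hM ρ _)
    exact h.comp_continuousOn hc.1
  have hanti := D2U_anti hDER hFRAME hQB hQL hLIMU hCONT hK hM ρ c A B hc hcoh s ε hε hs
  have hne0 : (𝓝[Ioo (0 : ℝ) 1] 0).NeBot := by
    rw [← mem_closure_iff_nhdsWithin_neBot, closure_Ioo (by norm_num)]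
    exact left_mem_Icc.2 zero_le_one
  have hne1 : (𝓝[Ioo (0 : ℝ) 1] 1).NeBot := by
    rw [← mem_closure_iff_nhdsWithin_neBot, closure_Ioo (by norm_num)]
    exact right_mem_Icc.2 zero_le_one
  have h0 : Tendsto (fun t => D2U M ρ s ε (c t)) (𝓝[Ioo (0 : ℝ) 1] 0)
      (𝓝 (D2U M ρ s ε (c 0))) :=
    (hcontU 0 (left_mem_Icc.2 zero_le_one)).mono Ioo_subset_Icc_self
  have h1 : Tendsto (fun t => D2U M ρ s ε (c t)) (𝓝[Ioo (0 : ℝ) 1] 1)
      (𝓝 (D2U M ρ s ε (c 1))) :=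
    (hcontU 1 (right_mem_Icc.2 zero_le_one)).mono Ioo_subset_Icc_self
  have step : ∀ t2 ∈ Ioo (0 : ℝ) 1, D2U M ρ s ε (c t2) ≤ D2U M ρ s ε (c 0) := by
    intro t2 ht2
    refine ge_of_tendsto h0 ?_
    have e1 : ∀ᶠ t in 𝓝[Ioo (0 : ℝ) 1] 0, t < t2 :=
      nhdsWithin_le_nhds (Iio_mem_nhds ht2.1)
    filter_upwards [self_mem_nhdsWithin, e1] with t1 ht1 h12
    exact hanti t1 t2 ht1.1 h12.le ht2.2
  refine le_of_tendsto h1 ?_
  filter_upwards [self_mem_nhdsWithin] with t2 ht2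
  exact step t2 ht2

end Pool.Agent.H52.KP
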