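import Pool.Agent.H52.KP.Coh
import Pool.Agent.H52.KP.Path
import Pool.Agent.H52.KP.Fin
import Pool.Agent.H91.KPO.CONT
import Pool.Agent.H91.KPO.FRAME
import Pool.Agent.H13.KPO.ISO
import Pool.Agent.H59.KPO.LIFT
import Pool.Agent.H47.KPO.UC
import Pool.Agent.H47.KPO.UR
import Pool.Agent.H47.KPO.QL
import Pool.Agent.H16.KP.LIMU
import Pool.Agent.H35.KPO.DER
import Pool.Agent.H42.KPO.DISC
import Pool.Agent.H42.KPO.CONE
import Pool.Agent.H69.KPO.CHG
import Pool.Agent.H69.KPO.QB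

set_option autoImplicit false

open MeasureTheory Metric Set Topology Filter

namespace Pool.Agent.H52.KP

theorem disc' : T_DISC := Pool.Agent.H42.KPO.disc
theorem cone' : T_CONE := Pool.Agent.H42.KPO.cone disc'
theorem chg' : T_CHG := Pool.Agent.H69.KPO.chg
theorem qb' : T_QB := Pool.Agent.H69.KPO.qb chg'
theorem ql' : T_QL := Pool.Agent.H47.KPO.ql chg' cone'
theorem frame' : T_FRAME := Pool.Agent.H91.KPO.frame
theorem cont' : T_CONT := Pool.Agent.H91.KPO.cont
theorem der' : T_DER := Pool.Agent.H35.KPO.der cont'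
theorem limu' : T_LIMU := Pool.Agent.H16.KP.limu
theorem uc' : T_UC := Pool.Agent.H47.KPO.uc
theorem ur' : T_UR := Pool.Agent.H47.KPO.ur
theorem path' : T_PATH := path der' frame' qb' ql' limu' uc' cont'

theorem kneser_main (d n : ℕ) (p q : Fin n → EuclideanSpace ℝ (Fin d)) (ρ : Fin n → ℝ)
    (hρ : ∀ i, 0 < ρ i) (hpq : ∀ i j, dist (q i) (q j) ≤ dist (p i) (p j))
    (h : n ≤ d + 4 ∨
      (Module.finrank ℝ (vectorSpan ℝ (Set.range fun i => (p i, q i))) ≤ d + 3 ∧ CohHyp p q ρ))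
    (τ : Fin n → ℝ) (hτ : Antitone τ) :
    ∑ k : Fin n, τ k *
        (MeasureTheory.volume
          {x : EuclideanSpace ℝ (Fin d) |
            k.val + 1 ≤ (Finset.univ.filter (fun i => dist x (q i) ≤ ρ i)).card}).toReal
      ≤
    ∑ k : Fin n, τ k *
        (MeasureTheory.volume
          {x : EuclideanSpace ℝ (Fin d) |
            k.val + 1 ≤ (Finset.univ.filter (fun i => dist x (p i) ≤ ρ i)).card}).toReal :=
  kneser_all path' coh Pool.Agent.H59.KPO.lift Pool.Agent.H13.KPO.iso ur' d n p q ρ hρ hpq h τ hτ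

end Pool.Agent.H52.KP
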