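import Pool.Agent.H65k.Final

set_option autoImplicit false
set_option linter.unusedVariables false

/-!
Targets of the board `kp_modules` (Kneser's weighted inequality for `n ≤ d + 4`, and for coherent
configurations of joint rank at most `d + 3`).
-/

open MeasureTheory Metric Set Topology Filter
open scoped RealInnerProductSpace
open Pool.Agent.H65k

namespace Pool.Agent.H52.KP

/-- Euclidean space. -/
abbrev Eu (N : ℕ) := EuclideanSpace ℝ (Fin N)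

/-- admissible functions `M`: twice continuously differentiable, concave, nondecreasing. -/
def GoodM (M : ℝ → ℝ) : Prop :=
  ContDiff ℝ 2 M ∧ (∀ s, deriv (deriv M) s ≤ 0) ∧ ∀ s, 0 ≤ deriv M s

section defs

variable {n : ℕ} {V : Type*} [NormedAddCommGroup V] [InnerProductSpace ℝ V]

/-- number of the indices whose power function is at most `s` at `y`. -/
noncomputable def cnt (ρ : Fin n → ℝ) (s : ℝ) (c : Fin n → V) (y : V) : ℕ :=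
  (Finset.univ.filter fun l => pw ρ l (c, y) ≤ s).card

/-- coherence: all spheres have the same power at some point `a`, and the centres lie in a
hyperplane through `a` (with unit normal `u`). -/
def Coh (ρ : Fin n → ℝ) (c : Fin n → V) : Prop :=
  ∃ (a u : V) (P : ℝ), ‖u‖ = 1 ∧ (∀ l, ⟪c l - a, u⟫ = 0) ∧ ∀ l, ‖c l - a‖ ^ 2 - ρ l ^ 2 = P

variable [FiniteDimensional ℝ V] [MeasurableSpace V] [BorelSpace V]

/-- the volume functional. -/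
noncomputable def U (M : ℝ → ℝ) (ρ : Fin n → ℝ) (s : ℝ) (c : Fin n → V) : ℝ :=
  ∫ y : V, (M (cnt ρ s c y) - M 0)

/-- second difference of the volume functional. -/
noncomputable def D2U (M : ℝ → ℝ) (ρ : Fin n → ℝ) (s ε : ℝ) (c : Fin n → V) : ℝ :=
  U M ρ (s + 2 * ε) c - 2 * U M ρ (s + ε) c + U M ρ s c

/-- the smoothed volume functional. -/
noncomputable def Us (k : ℕ) (M : ℝ → ℝ) (ρ : Fin n → ℝ) (s : ℝ) (c : Fin n → V) : ℝ :=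
  ∫ y : V, (M (∑ l, phk k (pw ρ l (c, y) - s)) - M 0)

/-- second difference of the smoothed volume functional. -/
noncomputable def D2Us (k : ℕ) (M : ℝ → ℝ) (ρ : Fin n → ℝ) (s ε : ℝ) (c : Fin n → V) : ℝ :=
  Us k M ρ (s + 2 * ε) c - 2 * Us k M ρ (s + ε) c + Us k M ρ s c

/-- the smoothed measure of the wall between `i` and `j` at level `σ`. -/
noncomputable def rk (k : ℕ) (M : ℝ → ℝ) (ρ : Fin n → ℝ) (i j : Fin n) (σ : ℝ)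
    (c : Fin n → V) : ℝ :=
  ∫ y : V, -(deriv (deriv M) (∑ l, phk k (pw ρ l (c, y) - σ))) *
    (deriv (phk k) (pw ρ i (c, y) - σ) * deriv (phk k) (pw ρ j (c, y) - σ))

/-- its second difference. -/
noncomputable def Bk (k : ℕ) (M : ℝ → ℝ) (ρ : Fin n → ℝ) (i j : Fin n) (s ε : ℝ)
    (c : Fin n → V) : ℝ :=
  (∫ σ in (s + ε)..(s + 2 * ε), rk k M ρ i j σ c) - ∫ σ in s..(s + ε), rk k M ρ i j σ c

end defs

section coord

variable {n K : ℕ}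

/-- the power functions in coordinates. -/
noncomputable def gq (xl : Fin n → Eu K) (zl : Fin n → ℝ) (P : ℝ) (l : Fin n) (x : Eu K)
    (z η : ℝ) : ℝ :=
  ‖x‖ ^ 2 + z ^ 2 + η ^ 2 - 2 * ⟪x, xl l⟫ - 2 * z * zl l + P

/-- `rk` in coordinates. -/
noncomputable def rq (k : ℕ) (M : ℝ → ℝ) (xl : Fin n → Eu K) (zl : Fin n → ℝ) (P : ℝ)
    (i j : Fin n) (σ : ℝ) : ℝ :=
  ∫ y : Eu K × (ℝ × ℝ),
    -(deriv (deriv M) (∑ l, phk k (gq xl zl P l y.1 y.2.1 y.2.2 - σ))) *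
    (deriv (phk k) (gq xl zl P i y.1 y.2.1 y.2.2 - σ) *
      deriv (phk k) (gq xl zl P j y.1 y.2.1 y.2.2 - σ))

/-- the integrand after the change of variables; `w = ((u, u'), (x, η))`. -/
noncomputable def hk (k : ℕ) (M : ℝ → ℝ) (xl : Fin n → Eu K) (zl : Fin n → ℝ) (P : ℝ)
    (i : Fin n) (κ a b : ℝ) (w : (ℝ × ℝ) × (Eu K × ℝ)) : ℝ :=
  (deriv (phk 0) w.1.1 * deriv (phk 0) w.1.2) *
    (if a ≤ gq xl zl P i w.2.1 ((w.1.2 - w.1.1) / (2 * κ * ((k : ℝ) + 1))) w.2.2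
          - w.1.1 / ((k : ℝ) + 1) ∧
        gq xl zl P i w.2.1 ((w.1.2 - w.1.1) / (2 * κ * ((k : ℝ) + 1))) w.2.2
          - w.1.1 / ((k : ℝ) + 1) ≤ b
      then -(deriv (deriv M) (∑ l, phk k
        (gq xl zl P l w.2.1 ((w.1.2 - w.1.1) / (2 * κ * ((k : ℝ) + 1))) w.2.2
          - gq xl zl P i w.2.1 ((w.1.2 - w.1.1) / (2 * κ * ((k : ℝ) + 1))) w.2.2
          + w.1.1 / ((k : ℝ) + 1))))
      else 0)

end coord

/-- DISC: convexity of the radial integral. -/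
def T_DISC : Prop := ∀ (K : ℕ), 2 ≤ K → ∀ (A b S ε : ℝ), 0 < A → 0 < ε →
  0 ≤ (∫ w : ℝ × ℝ, if 0 < w.1 ∧ A * w.1 ^ 2 - 2 * b * w.1 + w.2 ^ 2 ≤ S + 2 * ε
        then w.1 ^ (K - 1) else 0)
    - 2 * (∫ w : ℝ × ℝ, if 0 < w.1 ∧ A * w.1 ^ 2 - 2 * b * w.1 + w.2 ^ 2 ≤ S + ε
        then w.1 ^ (K - 1) else 0)
    + ∫ w : ℝ × ℝ, if 0 < w.1 ∧ A * w.1 ^ 2 - 2 * b * w.1 + w.2 ^ 2 ≤ S
        then w.1 ^ (K - 1) else 0

/-- the functional `Z` of CONE. -/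
noncomputable def Zf {K : ℕ} (G : Eu K → ℝ) (xb : Eu K) (P s : ℝ) : ℝ :=
  ∫ y : Eu K × ℝ, if ‖y.1‖ ^ 2 + y.2 ^ 2 - 2 * ⟪y.1, xb⟫ + P ≤ s then G y.1 else 0

/-- CONE: convexity for positively homogeneous densities of degree zero. -/
def T_CONE : Prop := ∀ (K : ℕ), 2 ≤ K → ∀ (G : Eu K → ℝ), Measurable G →
  ∀ C : ℝ, (∀ x, 0 ≤ G x ∧ G x ≤ C) → (∀ τ : ℝ, 0 < τ → ∀ x, G (τ • x) = G x) →
  ∀ (xb : Eu K) (P s ε : ℝ), 0 < ε →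
    0 ≤ Zf G xb P (s + 2 * ε) - 2 * Zf G xb P (s + ε) + Zf G xb P s

/-- CHG: the change of variables. -/
def T_CHG : Prop := ∀ (n K : ℕ) (M : ℝ → ℝ), GoodM M → ∀ (k : ℕ) (xl : Fin n → Eu K)
  (zl : Fin n → ℝ) (P : ℝ) (i j : Fin n), xl i = xl j → ∀ κ, 0 < κ → zl i - zl j = κ →
  ∀ a b, a ≤ b → Integrable (hk k M xl zl P i κ a b) ∧
    ∫ σ in a..b, rq k M xl zl P i j σ = (1 / (2 * κ)) * ∫ w, hk k M xl zl P i κ a b w

/-- QB: the uniform bound. -/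
def T_QB : Prop := ∀ (n K : ℕ) (M : ℝ → ℝ), GoodM M → ∀ R b : ℝ, ∃ C : ℝ, 0 ≤ C ∧
  ∀ (k : ℕ) (xl : Fin n → Eu K) (zl : Fin n → ℝ) (P : ℝ) (i j : Fin n), xl i = xl j →
  ∀ κ, 0 < κ → zl i - zl j = κ → ‖xl i‖ ^ 2 + zl i ^ 2 - P ≤ R → ∀ a, a ≤ b →
    0 ≤ ∫ σ in a..b, rq k M xl zl P i j σ ∧ ∫ σ in a..b, rq k M xl zl P i j σ ≤ C / κ

/-- QL: the limit. -/
def T_QL : Prop := ∀ (n K : ℕ), 2 ≤ K → ∀ (M : ℝ → ℝ), GoodM M → ∀ (xl : Fin n → Eu K)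
  (zl : Fin n → ℝ) (P : ℝ) (i j : Fin n), xl i = xl j → ∀ κ, 0 < κ → zl i - zl j = κ →
  ∀ s ε : ℝ, 0 < ε → ∃ B0 : ℝ, 0 ≤ B0 ∧
    Tendsto (fun k : ℕ => (∫ σ in (s + ε)..(s + 2 * ε), rq k M xl zl P i j σ)
      - ∫ σ in s..(s + ε), rq k M xl zl P i j σ) atTop (𝓝 B0)

/-- FRAME: coordinates adapted to the pair `i, j`. -/
def T_FRAME : Prop := ∀ (n K : ℕ) (ρ : Fin n → ℝ) (c : Fin n → Eu (K + 2)), Coh ρ c →
  ∀ i j, c i ≠ c j → ∃ (xl : Fin n → Eu K) (zl : Fin n → ℝ) (P : ℝ),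
    xl i = xl j ∧ zl i - zl j = ‖c i - c j‖ ∧ ‖xl i‖ ^ 2 + zl i ^ 2 - P = ρ i ^ 2 ∧
    ∀ (k : ℕ) (M : ℝ → ℝ) (σ : ℝ), rk k M ρ i j σ c = rq k M xl zl P i j σ

/-- CONT: joint continuity of the smoothed wall measures. -/
def T_CONT : Prop := ∀ (n N : ℕ) (M : ℝ → ℝ), GoodM M → ∀ (ρ : Fin n → ℝ) (k : ℕ)
  (i j : Fin n), Continuous fun z : ℝ × (Fin n → Eu N) => rk k M ρ i j z.1 z.2

/-- a path of configurations with squared distances linear in the time. -/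
def LinPath {n N : ℕ} (c : ℝ → Fin n → Eu N) (A B : Fin n → Fin n → ℝ) : Prop :=
  ContinuousOn c (Icc 0 1) ∧ (∀ t ∈ Ioo (0 : ℝ) 1, DifferentiableAt ℝ c t) ∧
  (∀ t ∈ Icc (0 : ℝ) 1, ∀ i j, ‖c t i - c t j‖ ^ 2 = (1 - t) * A i j + t * B i j) ∧
  ∀ i j, 0 ≤ B i j ∧ B i j ≤ A i j

/-- DER: the derivative formula along such a path, in integrated form. -/
def T_DER : Prop := ∀ (n N : ℕ) (M : ℝ → ℝ), GoodM M → ∀ (ρ : Fin n → ℝ) (k : ℕ), 1 ≤ k →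
  ∀ (c : ℝ → Fin n → Eu N) (A B : Fin n → Fin n → ℝ), LinPath c A B →
  ∀ s ε : ℝ, 0 < ε → s + 2 * ε ≤ 1 / 2 → ∀ t1 t2 : ℝ, 0 < t1 → t1 ≤ t2 → t2 < 1 →
    D2Us k M ρ s ε (c t2) - D2Us k M ρ s ε (c t1)
      = -∫ t in t1..t2, ∑ i, ∑ j, ((A i j - B i j) / 2) * Bk k M ρ i j s ε (c t)

/-- LIMU: the smoothed functional converges. -/
def T_LIMU : Prop := ∀ (n N : ℕ) (M : ℝ → ℝ), GoodM M → ∀ (ρ : Fin n → ℝ) (s : ℝ)
  (c : Fin n → Eu N), Tendsto (fun k => Us k M ρ s c) atTop (𝓝 (U M ρ s c))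

/-- UC: continuity of the volume functional in the configuration. -/
def T_UC : Prop := ∀ (n N : ℕ), 1 ≤ N → ∀ (M : ℝ → ℝ), GoodM M → ∀ (ρ : Fin n → ℝ) (s : ℝ),
  Continuous fun c : Fin n → Eu N => U M ρ s c

/-- UR: continuity from the right in `s`. -/
def T_UR : Prop := ∀ (n N : ℕ) (M : ℝ → ℝ), GoodM M → ∀ (ρ : Fin n → ℝ) (s : ℝ)
  (c : Fin n → Eu N), Tendsto (fun ε => U M ρ (s + ε) c) (𝓝[>] 0) (𝓝 (U M ρ s c))

/-- PATH: the second difference does not increase along a coherent contracting path. -/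
def T_PATH : Prop := ∀ (n K : ℕ), 2 ≤ K → ∀ (M : ℝ → ℝ), GoodM M → ∀ (ρ : Fin n → ℝ)
  (c : ℝ → Fin n → Eu (K + 2)) (A B : Fin n → Fin n → ℝ), LinPath c A B →
  (∀ t ∈ Ioo (0 : ℝ) 1, Coh ρ (c t)) → ∀ s ε : ℝ, 0 < ε → s + 2 * ε ≤ 1 / 2 →
    D2U M ρ s ε (c 1) ≤ D2U M ρ s ε (c 0)

/-- LIFT: the second difference in dimension `d + 4` and the functional in dimension `d`. -/
def T_LIFT : Prop := ∃ C : ℝ, 0 < C ∧ ∀ (d n : ℕ) (M : ℝ → ℝ), GoodM M → ∀ (ρ : Fin n → ℝ)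
  (p : Fin n → Eu d) (s ε : ℝ), 0 < ε →
    C * ε ^ 2 * U M ρ s p
      ≤ D2U M ρ s ε (fun i => (WithLp.toLp 2 (p i, 0) : WithLp 2 (Eu d × Eu 4))) ∧
    D2U M ρ s ε (fun i => (WithLp.toLp 2 (p i, 0) : WithLp 2 (Eu d × Eu 4)))
      ≤ C * ε ^ 2 * U M ρ (s + 2 * ε) p

/-- ISO: congruent configurations have the same functional. -/
def T_ISO : Prop := ∀ (d n : ℕ) (c : Fin n → Eu (d + 4)) (p : Fin n → Eu d),
  (∀ i j, ‖c i - c j‖ = ‖p i - p j‖) → ∀ (M : ℝ → ℝ) (ρ : Fin n → ℝ) (s : ℝ),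
    U M ρ s c = U M ρ s (fun i => (WithLp.toLp 2 (p i, 0) : WithLp 2 (Eu d × Eu 4)))

/-- the algebraic coherence hypothesis. -/
def CohHyp {d n : ℕ} (p q : Fin n → Eu d) (ρ : Fin n → ℝ) : Prop :=
  ∀ a : Fin n → ℝ, ∑ i, a i = 0 → ∑ i, a i • p i = 0 → ∑ i, a i • q i = 0 →
    ∑ i, a i * (‖p i‖ ^ 2 - ρ i ^ 2) = 0 ∧ ∑ i, a i * (‖q i‖ ^ 2 - ρ i ^ 2) = 0

/-- COH: the path. -/
def T_COH : Prop := ∀ (d n : ℕ) (p q : Fin n → Eu d) (ρ : Fin n → ℝ), 0 < n →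
  (∀ i j, ‖q i - q j‖ ≤ ‖p i - p j‖) →
  Module.finrank ℝ (vectorSpan ℝ (Set.range fun i => (p i, q i))) ≤ d + 3 →
  CohHyp p q ρ → ∃ c : ℝ → Fin n → Eu (d + 4),
    LinPath c (fun i j => ‖p i - p j‖ ^ 2) (fun i j => ‖q i - q j‖ ^ 2) ∧
    ∀ t ∈ Ioo (0 : ℝ) 1, Coh ρ (c t)

end Pool.Agent.H52.KP
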